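import Pool.Agent.R333.Sel.Tow
import Pool.Agent.R433.MD.GalRel
import Pool.Agent.R333.BR.OddG

/-!
# The p-parity conjecture: change of the prime

`A` is a discrete `Gal(Ω/K)`-module (the points of an elliptic curve), `L / K` a finite Galois
extension and `p`, `q` are primes.  If the p-parity conjecture holds for `A` over all intermediate
fields of `L / K`, then the q-parity conjecture holds over all intermediate fields if and only if it
holds over the intermediate fields `F` for which `Gal(L/F)` is 2-hyperelementary.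
-/

set_option autoImplicit false

namespace Pool.Agent.Results.MP_ddf76b_nt.ChangeOfPrime

open TensorProduct
open Pool.Agent.R333.Sel (Sel resAct)

/-- The subgroup of the elements of `p`-power order. -/
def pTorsion (p : ℕ) (A : Type) [AddCommGroup A] : AddSubgroup A where
  carrier := {P | ∃ n : ℕ, p ^ n • P = 0}
  add_mem' := by
    rintro a b ⟨m, hm⟩ ⟨n, hn⟩
    refine ⟨m + n, ?_⟩
    rw [smul_add, pow_add, mul_smul (p ^ m) (p ^ n) b, hn, smul_zero, mul_comm (p ^ m), mul_smul,
      hm, smul_zero, add_zero]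
  zero_mem' := ⟨0, smul_zero _⟩
  neg_mem' := by
    rintro a ⟨m, hm⟩
    exact ⟨m, by rw [smul_neg, hm, neg_zero]⟩

/-- The group `ℚ_p / ℤ_p`. -/
def QpZp (p : ℕ) [Fact p.Prime] : Type :=
  ℚ_[p] ⧸ LinearMap.range (Algebra.linearMap ℤ_[p] ℚ_[p])

noncomputable instance (p : ℕ) [Fact p.Prime] : AddCommGroup (QpZp p) :=
  Submodule.Quotient.addCommGroup _

noncomputable instance (p : ℕ) [Fact p.Prime] : Module ℤ_[p] (QpZp p) :=
  Submodule.Quotient.module _

/-- The Pontryagin dual `Hom(S, ℚ_p / ℤ_p)` of the group `S`. -/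
def Dual (p : ℕ) [Fact p.Prime] (S : Type) [AddCommGroup S] : Type := S →+ QpZp p

noncomputable instance (p : ℕ) [Fact p.Prime] (S : Type) [AddCommGroup S] :
    AddCommGroup (Dual p S) :=
  AddMonoidHom.instAddCommGroup

noncomputable instance (p : ℕ) [Fact p.Prime] (S : Type) [AddCommGroup S] :
    Module ℤ_[p] (Dual p S) :=
  AddMonoidHom.instModule

/-- The `ℤ_p`-corank of `S`: the dimension of `ℚ_p ⊗ Hom(S, ℚ_p / ℤ_p)` over `ℚ_p`. -/
noncomputable def corank (p : ℕ) [Fact p.Prime] (S : Type) [AddCommGroup S] : Cardinal :=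
  Module.rank ℚ_[p] (ℚ_[p] ⊗[ℤ_[p]] Dual p S)

/-- The `p`-infinity Selmer rank of the `Gal(Ω/F)`-module `A`: the corank of the Selmer group of its
`p`-power torsion. -/
noncomputable def selmerRank {F Ω A : Type} [Field F] [Field Ω] [Algebra F Ω] [AddCommGroup A]
    (p : ℕ) [Fact p.Prime] (ρ : Gal(Ω/F) →* AddMonoid.End A) : Cardinal :=
  corank p (Sel ρ (pTorsion p A))

/-- The parity conjecture at the prime `p` for the `Gal(Ω/K)`-module `A` over the extension `F` of `K`
in `Ω`, for a sign `w`: the Selmer rank `rk_p (A/F)` is a natural number `r`, and `(-1) ^ r = w`. -/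
def PParity {K Ω A : Type} [Field K] [Field Ω] [Algebra K Ω] [AddCommGroup A] (p : ℕ)
    [Fact p.Prime] (ρ : Gal(Ω/K) →* AddMonoid.End A) (F : Type) [Field F] [Algebra K F]
    [Algebra F Ω] [IsScalarTower K F Ω] (w : ℤ) : Prop :=
  ∃ r : ℕ, selmerRank p (resAct ρ F) = r ∧ (-1 : ℤ) ^ r = w

/-- The `Gal(Ω/K)`-module `A` is discrete: every element is fixed by the automorphisms that fix the
elements of some finite subset of `Ω`. -/
def IsDiscrete {K Ω A : Type} [Field K] [Field Ω] [Algebra K Ω] [AddCommGroup A]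
    (ρ : Gal(Ω/K) →* AddMonoid.End A) : Prop :=
  ∀ P : A, ∃ s : Finset Ω, ∀ σ : Gal(Ω/K), (∀ x ∈ s, σ x = x) → ρ σ P = P

/-- The group `G` is 2-hyperelementary: it has a cyclic normal subgroup `C` of odd order such that
`G / C` is a 2-group. -/
def TwoHyperelementary (G : Type) [Group G] : Prop :=
  ∃ C : Subgroup G, C.Normal ∧ IsCyclic C ∧ Odd (Nat.card C) ∧ ∀ g : G, ∃ k : ℕ, g ^ 2 ^ k ∈ C

section Aux

open Pool.Agent.R433.MD (fx emb fx_eq_emb gal_unit IsHyper hyper_count)
open Pool.Agent.R333.Sel (sel_rel2)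

theorem neg_pow_iff (a b : ℕ) : (-1 : ℤ) ^ a = (-1) ^ b ↔ Even (a + b) := by
  rcases Nat.even_or_odd a with ha | ha <;> rcases Nat.even_or_odd b with hb | hb
  · simp [ha.neg_one_pow, hb.neg_one_pow, ha.add hb]
  · simp [ha.neg_one_pow, hb.neg_one_pow, ha.add_odd hb]
  · simp [ha.neg_one_pow, hb.neg_one_pow, ha.add_even hb]
  · simp [ha.neg_one_pow, hb.neg_one_pow, ha.add_odd hb]

section groups

theorem hyper_congr {G G' : Type} [Group G] [Group G'] (e : G ≃* G') (h : TwoHyperelementary G) :
    TwoHyperelementary G' := by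
  obtain ⟨C, hn, hc, ho, hk⟩ := h
  refine ⟨C.map e.toMonoidHom, ?_, ?_, ?_, fun g => ?_⟩
  · exact hn.map _ e.surjective
  · let e' : C ≃* C.map e.toMonoidHom := C.equivMapOfInjective _ e.injective
    exact isCyclic_of_surjective e'.toMonoidHom e'.surjective
  · let e' : C ≃* C.map e.toMonoidHom := C.equivMapOfInjective _ e.injective
    rw [← Nat.card_congr e'.toEquiv]
    exact ho
  · obtain ⟨k, hk⟩ := hk (e.symm g)
    refine ⟨k, ⟨_, hk, ?_⟩⟩
    change e (e.symm g ^ 2 ^ k) = g ^ 2 ^ k
    rw [map_pow, e.apply_symm_apply]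

theorem hyper_sub {G : Type} [Group G] (H : Subgroup G) (h : TwoHyperelementary G) :
    TwoHyperelementary H := by
  obtain ⟨C, hn, hc, ho, hk⟩ := h
  have hinj : Function.Injective (fun x : C.subgroupOf H => (⟨(x : H), x.2⟩ : C)) := by
    intro x y hxy
    exact Subtype.ext (Subtype.ext (congrArg (fun z : C => (z : G)) hxy))
  let q : C.subgroupOf H →* C :=
    { toFun := fun x => ⟨(x : H), x.2⟩
      map_one' := rfl
      map_mul' := fun _ _ => rfl }
  refine ⟨C.subgroupOf H, inferInstance, ?_, ?_, fun g => ?_⟩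
  · exact isCyclic_of_injective q hinj
  · exact ho.of_dvd_nat (Subgroup.card_dvd_of_injective q hinj)
  · obtain ⟨k, hk⟩ := hk g
    exact ⟨k, hk⟩

theorem hyper_of {K L : Type} [Field K] [Field L] [Algebra K L] (F : IntermediateField K L)
    (h : IsHyper 2 F.fixingSubgroup) : TwoHyperelementary Gal(L/F) := by
  refine hyper_congr (IntermediateField.fixingSubgroupEquiv F) ?_
  obtain ⟨C, hC, hcyc, hcop, hnorm, hpow⟩ := h
  have hinj : Function.Injective (fun x : C.subgroupOf F.fixingSubgroup =>
      (⟨(x : F.fixingSubgroup), x.2⟩ : C)) := by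
    intro x y hxy
    exact Subtype.ext (Subtype.ext (congrArg (fun z : C => (z : Gal(L/K))) hxy))
  let q : C.subgroupOf F.fixingSubgroup →* C :=
    { toFun := fun x => ⟨(x : F.fixingSubgroup), x.2⟩
      map_one' := rfl
      map_mul' := fun _ _ => rfl }
  refine ⟨C.subgroupOf F.fixingSubgroup, ⟨fun n hn g => ?_⟩, ?_, ?_, fun g => ?_⟩
  · exact hnorm g g.2 n hn
  · exact isCyclic_of_injective q hinj
  · exact (Nat.coprime_two_right.1 hcop).of_dvd_nat (Subgroup.card_dvd_of_injective q hinj)
  · obtain ⟨k, hk⟩ := hpow g g.2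
    exact ⟨k, hk⟩

end groups

section steps

variable {K L Ω A : Type} [Field K] [NumberField K] [Field L] [NumberField L] [Algebra K L]
  [IsGalois K L] [Field Ω] [Algebra K Ω] [Algebra L Ω] [IsScalarTower K L Ω] [IsAlgClosure K Ω]
  [AddCommGroup A] (ρ : Gal(Ω/K) →* AddMonoid.End A) (hρ : IsDiscrete ρ)

include hρ in
/-- relations -/
theorem rank_rel (p : ℕ) [Fact p.Prime] (M : IntermediateField K L) {ι : Type} [Fintype ι]
    [Nonempty ι] (F : ι → IntermediateField M L) (e : ι → ℤ) (m : ℤ)
    (h : ∀ g : Gal(L/M), ∑ i, e i * fx (F i).fixingSubgroup g = m) (r : ι → ℕ)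
    (hr : ∀ i, selmerRank p (resAct ρ ((F i).restrictScalars K)) = r i) :
    ∃ r0 : ℕ, selmerRank p (resAct ρ M) = r0 ∧ m * (r0 : ℤ) = ∑ i, e i * (r i : ℤ) := by
  have : Algebra.IsAlgebraic K Ω := IsAlgClosure.isAlgebraic
  have : Normal K Ω := inferInstance
  have hr' : ∀ i, Module.rank ℚ_[p] (ℚ_[p] ⊗[ℤ_[p]]
      (Sel (resAct ρ ((F i).restrictScalars K)) (pTorsion p A) →+ QpZp p)) = r i := hr
  exact sel_rel2 ρ (pTorsion p A)
    (by
      rintro σ x ⟨n, hn⟩
      refine ⟨n, ?_⟩
      rw [← map_nsmul, hn, map_zero]) hρ ℤ_[p] (QpZp p) ℚ_[p] M F e m h r hr'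

include hρ in
/-- induction from the 2-hyperelementary extensions -/
theorem parity_hyper (p q : ℕ) [Fact p.Prime] [Fact q.Prime] (w : IntermediateField K L → ℤ)
    (hp : ∀ F : IntermediateField K L, PParity p ρ F (w F)) (M : IntermediateField K L)
    (hF : ∀ F : IntermediateField M L, TwoHyperelementary Gal(L/F) →
      PParity q ρ (F.restrictScalars K) (w (F.restrictScalars K))) :
    PParity q ρ M (w M) := by
  obtain ⟨m, S, n, hm0, hmP, hS, hsum⟩ := gal_unit (K := M) (L := L)
    {F : IntermediateField M L | IsHyper 2 F.fixingSubgroup}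
    (by
      intro F hF F' _
      have hle : (F ⊔ F').fixingSubgroup ≤ F.fixingSubgroup := by
        rw [IntermediateField.fixingSubgroup_sup]
        exact inf_le_left
      have hF' : IsHyper 2 F.fixingSubgroup := hF
      exact hF'.le hle)
    (by
      intro F hF σ
      have e : (F.map (σ : L →ₐ[M] L)).fixingSubgroup =
          F.fixingSubgroup.map (MulAut.conj σ).toMonoidHom := IsGalois.map_fixingSubgroup F σ
      rw [Set.mem_ofPred_eq, e]
      have hF' : IsHyper 2 F.fixingSubgroup := hF
      exact hF'.conj σ) {2}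
    (by
      intro g
      obtain ⟨H, hH, h⟩ := hyper_count Nat.prime_two g
      have e : (IntermediateField.fixedField H).fixingSubgroup = H :=
        IntermediateField.fixingSubgroup_fixedField _
      refine ⟨IntermediateField.fixedField H, ?_, ?_⟩
      · rw [Set.mem_ofPred_eq, e]
        exact hH
      · have h1 := fx_eq_emb (IntermediateField.fixedField H) g
        rw [e] at h1
        intro h2
        rw [h1, h2] at h
        exact h (dvd_zero _))
    (by
      intro g p hp hpp
      obtain rfl : p = 2 := hp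
      obtain ⟨H, hH, h⟩ := hyper_count Nat.prime_two g
      have e : (IntermediateField.fixedField H).fixingSubgroup = H :=
        IntermediateField.fixingSubgroup_fixedField _
      refine ⟨IntermediateField.fixedField H, ?_, ?_⟩
      · rw [Set.mem_ofPred_eq, e]
        exact hH
      · have h1 := fx_eq_emb (IntermediateField.fixedField H) g
        rw [e] at h1
        rw [h1] at h
        exact_mod_cast h)
  have hodd : Odd m := by
    rw [← Nat.not_even_iff_odd, even_iff_two_dvd]
    exact hmP 2 rfl Nat.prime_two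
  have hrel : ∀ g : Gal(L/M), ∑ i : S, n i.1 * fx (i.1).fixingSubgroup g = m := by
    intro g
    rw [← hsum g, ← Finset.sum_coe_sort S (fun F => n F * fx F.fixingSubgroup g)]
  have hne : Nonempty S := by
    by_contra h
    rw [not_nonempty_iff] at h
    have h1 := hrel 1
    rw [Finset.univ_eq_empty, Finset.sum_empty] at h1
    exact hm0 (by exact_mod_cast h1.symm)
  have hq : ∀ i : S, PParity q ρ (i.1.restrictScalars K) (w (i.1.restrictScalars K)) :=
    fun i => hF i.1 (hyper_of i.1 (hS i.1 i.2))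
  have hp' : ∀ i : S, PParity p ρ (i.1.restrictScalars K) (w (i.1.restrictScalars K)) :=
    fun i => hp _
  unfold PParity at hq hp'
  choose r hr hwr using hp'
  choose t ht hwt using hq
  obtain ⟨r0, h1, h2⟩ := rank_rel ρ hρ p M (fun i : S => i.1) (fun i => n i.1) m hrel r hr
  obtain ⟨t0, k1, k2⟩ := rank_rel ρ hρ q M (fun i : S => i.1) (fun i => n i.1) m hrel t ht
  have hev : Even ((m : ℤ) * (r0 + t0)) := by
    have h5 : (m : ℤ) * (r0 + t0) = ∑ i : S, n i.1 * ((r i + t i : ℕ) : ℤ) := by
      rw [mul_add, h2, k2, ← Finset.sum_add_distrib]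
      refine Finset.sum_congr rfl fun i _ => ?_
      push_cast
      ring
    rw [h5]
    refine Finset.even_sum _ fun i _ => ?_
    have h6 : Even (r i + t i) := (neg_pow_iff _ _).1 ((hwr i).trans (hwt i).symm)
    have h7 : Even ((r i + t i : ℕ) : ℤ) := by exact_mod_cast h6
    exact h7.mul_left _
  have hm' : Odd (m : ℤ) := by exact_mod_cast hodd
  have h7 : Even ((r0 : ℤ) + t0) := by
    rcases Int.even_mul.1 hev with h8 | h8
    · exact absurd h8 (Int.not_even_iff_odd.2 hm')
    · exact h8
  have h8 : Even (r0 + t0) := by exact_mod_cast h7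
  obtain ⟨r1, l1, l2⟩ := hp M
  have h9 : r1 = r0 := by
    rw [h1] at l1
    exact_mod_cast l1.symm
  refine ⟨t0, k1, ?_⟩
  rw [← l2, h9]
  exact ((neg_pow_iff _ _).2 h8).symm

end steps

end Aux

/-- **Change of the prime.** Let `L / K` be a finite Galois extension of number fields, `Ω` an
algebraic closure of `K` containing `L`, `A` a discrete `Gal(Ω/K)`-module, `w` a function from the
intermediate fields to the integers (the root numbers) and `p`, `q` primes. If `(-1) ^ rk_p (A/F)` is
`w F` for all intermediate fields `F`, then `(-1) ^ rk_q (A/F)` is `w F` for all intermediate fields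
`F` if and only if this holds for those `F` for which `Gal(L/F)` is 2-hyperelementary. -/
theorem result (K L Ω A : Type) [Field K] [NumberField K] [Field L] [NumberField L] [Algebra K L]
    [IsGalois K L] [Field Ω] [Algebra K Ω] [Algebra L Ω] [IsScalarTower K L Ω] [IsAlgClosure K Ω]
    [AddCommGroup A] (ρ : Gal(Ω/K) →* AddMonoid.End A) (hρ : IsDiscrete ρ)
    (p q : ℕ) [Fact p.Prime] [Fact q.Prime] (w : IntermediateField K L → ℤ)
    (hp : ∀ F : IntermediateField K L, PParity p ρ F (w F)) :
    (∀ F : IntermediateField K L, PParity q ρ F (w F)) ↔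
      ∀ F : IntermediateField K L, TwoHyperelementary Gal(L/F) → PParity q ρ F (w F) := by
  refine ⟨fun h F _ => h F, fun h M => ?_⟩
  refine parity_hyper ρ hρ p q w hp M fun F hF => ?_
  exact h (F.restrictScalars K) hF

end Pool.Agent.Results.MP_ddf76b_nt.ChangeOfPrime
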