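import Mathlib
import Pool.Agent.R389.RRf

/-!
# The p-parity conjecture over the intermediate fields of a Galois extension

`G = Gal(F/K)`, `E / K` an elliptic curve, `s χ` the multiplicity of the irreducible character `χ`
of `G` in the `p`-infinity Selmer representation `X_p(E/F)`, `w χ` the root number of the twist of
`E` by `χ`. The known formal properties are collected in `SelmerData`. The `p`-parity conjecture
for `E` over `F ^ H` is `PParity s w (ind H 1)`.
-/

set_option autoImplicit false

namespace Pool.Agent.Results.MP_ddf76b_nt.ParityTower

open Pool.Agent.R389 Pool.Agent.H302R3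

/-- Let `C` be a normal subgroup of `G` with a chain of normal subgroups of `G` whose factors are
elementary abelian `l`-groups, `l` an odd prime, such that `l = p` or no nontrivial linear
character of the factor is `p`-real (conjugate to its inverse and to a power with exponent
`p ^ r`, `r` odd). If `p`-parity holds over the fields `F ^ Q`, `Q ≥ C`, such that `Q / C` is
2-hyperelementary and its elements of odd prime order are `p`-real, then it holds over all
intermediate fields `F ^ H`. -/
theorem result {G : Type} [Group G] [Finite G] {p : ℕ} (hp : p.Prime) {s : (G → ℂ) → ℕ}
    {w : (G → ℂ) → ℂ} (hd : SelmerData p s w) {C : Subgroup G} [C.Normal] (hC : ATame p C)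
    (hQ : ∀ Q : Subgroup (G ⧸ C), HypP 2 Q → AllReal p Q →
      PParity s w (ind (Q.comap (QuotientGroup.mk' C)) (fun _ => 1))) (H : Subgroup G) :
    PParity s w (ind H (fun _ => 1)) :=
  parity_finalA hp hd hC hQ H

end Pool.Agent.Results.MP_ddf76b_nt.ParityTower
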