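import Pool.Agent.R333.Sel.Tow
import Pool.Agent.R333.BR.Split
import Pool.Agent.R333.BR.OddG
import Pool.Agent.R333.BR.Ord

/-!
# The p-parity conjecture for semistable elliptic curves: induction from 2-hyperelementary extensions

`E` is a semistable elliptic curve over a number field `K`, `L / K` a finite Galois extension and `p`
any prime.  If `(-1) ^ rk_p (E/F) = w(E/F)` for the intermediate fields `F` of `L / K` for which
`Gal(L/F)` is 2-hyperelementary, then this holds for all intermediate fields, `K` included.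

The `p`-infinity Selmer groups are those of Galois cohomology, given by cocycles.
-/

set_option autoImplicit false

namespace Pool.Agent.Results.MP_ddf76b_nt.SelmerInduction

open NumberField IsDedekindDomain TensorProduct
open Pool.Agent.R333.Sel (Sel resAct)

open scoped Classical

/-- The group `E(Ω)`. -/
def Points {K : Type} [Field K] (E : WeierstrassCurve K) (Ω : Type) [Field Ω] [Algebra K Ω] :
    Type :=
  (E.map (algebraMap K Ω)).toAffine.Point

noncomputable instance {K : Type} [Field K] (E : WeierstrassCurve K) (Ω : Type) [Field Ω]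
    [Algebra K Ω] : AddCommGroup (Points E Ω) :=
  WeierstrassCurve.Affine.Point.instAddCommGroup

/-- The action of `Gal(Ω/K)` on `E(Ω)`. -/
noncomputable def galAct {K : Type} [Field K] (E : WeierstrassCurve K) (Ω : Type) [Field Ω]
    [Algebra K Ω] : Gal(Ω/K) →* AddMonoid.End (Points E Ω) where
  toFun σ := WeierstrassCurve.Affine.Point.map (W' := E.toAffine) (σ : Ω →ₐ[K] Ω)
  map_one' := by
    ext P
    exact Pool.Agent.R333.BR.mp_id E P
  map_mul' σ τ := by
    ext P
    exact (Pool.Agent.R333.BR.mp_mp E (τ : Ω →ₐ[K] Ω) (σ : Ω →ₐ[K] Ω) P).symm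

/-- The subgroup of the elements of `p`-power order. -/
def pTorsion (p : ℕ) (A : Type) [AddCommGroup A] : AddSubgroup A where
  carrier := {P | ∃ n : ℕ, p ^ n • P = 0}
  add_mem' := by
    rintro a b ⟨m, hm⟩ ⟨n, hn⟩
    refine ⟨m + n, ?_⟩
    rw [smul_add, pow_add, mul_smul (p ^ m) (p ^ n) b, hn, smul_zero, mul_comm (p ^ m), mul_smul,
      hm, smul_zero, add_zero]
  zero_mem' := ⟨0, smul_zero _⟩
  neg_mem' := by
    rintro a ⟨m, hm⟩
    exact ⟨m, by rw [smul_neg, hm, neg_zero]⟩

/-- The group `ℚ_p / ℤ_p`. -/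
def QpZp (p : ℕ) [Fact p.Prime] : Type :=
  ℚ_[p] ⧸ LinearMap.range (Algebra.linearMap ℤ_[p] ℚ_[p])

noncomputable instance (p : ℕ) [Fact p.Prime] : AddCommGroup (QpZp p) :=
  Submodule.Quotient.addCommGroup _

noncomputable instance (p : ℕ) [Fact p.Prime] : Module ℤ_[p] (QpZp p) :=
  Submodule.Quotient.module _

/-- The Pontryagin dual `Hom(S, ℚ_p / ℤ_p)` of the group `S`. -/
def Dual (p : ℕ) [Fact p.Prime] (S : Type) [AddCommGroup S] : Type := S →+ QpZp p

noncomputable instance (p : ℕ) [Fact p.Prime] (S : Type) [AddCommGroup S] :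
    AddCommGroup (Dual p S) :=
  AddMonoidHom.instAddCommGroup

noncomputable instance (p : ℕ) [Fact p.Prime] (S : Type) [AddCommGroup S] :
    Module ℤ_[p] (Dual p S) :=
  AddMonoidHom.instModule

/-- The `ℤ_p`-corank of `S`: the dimension of `ℚ_p ⊗ Hom(S, ℚ_p / ℤ_p)` over `ℚ_p`. -/
noncomputable def corank (p : ℕ) [Fact p.Prime] (S : Type) [AddCommGroup S] : Cardinal :=
  Module.rank ℚ_[p] (ℚ_[p] ⊗[ℤ_[p]] Dual p S)

/-- The `p`-infinity Selmer rank of the `Gal(Ω/F)`-module `A`: the corank of the Selmer group of its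
`p`-power torsion. -/
noncomputable def selmerRank {F Ω A : Type} [Field F] [Field Ω] [Algebra F Ω] [AddCommGroup A]
    (p : ℕ) [Fact p.Prime] (ρ : Gal(Ω/F) →* AddMonoid.End A) : Cardinal :=
  corank p (Sel ρ (pTorsion p A))

/-- `W` is an integral model of `E`. -/
def IsModel {K : Type} [Field K] [NumberField K] (E : WeierstrassCurve K)
    (W : WeierstrassCurve (𝓞 K)) : Prop :=
  ∃ C : WeierstrassCurve.VariableChange K, C • W.map (algebraMap (𝓞 K) K) = E

/-- `E` is semistable: for every prime `v` there is an integral model of `E` whose reduction modulo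
`v` is smooth (`Δ` not in `v`) or has a node (`c₄` not in `v`). -/
def Semistable {K : Type} [Field K] [NumberField K] (E : WeierstrassCurve K) : Prop :=
  ∀ v : HeightOneSpectrum (𝓞 K), ∃ W : WeierstrassCurve (𝓞 K), IsModel E W ∧
    (W.Δ ∉ v.asIdeal ∨ W.c₄ ∉ v.asIdeal)

/-- `E` has split multiplicative reduction at `v`: there is an integral model of `E` with
`a₃, a₄, a₆` in `v` and `c₄` not in `v`, so that the reduction `y² + a₁ x y = x³ + a₂ x²` has a node
at the origin with the tangents `y = t x`, `t² + a₁ t - a₂ = 0`, and such a `t` exists in the residue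
field. -/
def SplitMultiplicative {K : Type} [Field K] [NumberField K] (E : WeierstrassCurve K)
    (v : HeightOneSpectrum (𝓞 K)) : Prop :=
  ∃ W : WeierstrassCurve (𝓞 K), IsModel E W ∧
    (W.a₃ ∈ v.asIdeal ∧ W.a₄ ∈ v.asIdeal ∧ W.a₆ ∈ v.asIdeal ∧ W.c₄ ∉ v.asIdeal) ∧
    ∃ t : 𝓞 K, t ^ 2 + W.a₁ * t - W.a₂ ∈ v.asIdeal

/-- The root number of a semistable elliptic curve `E` over `K`: `(-1) ^ (m + u)`, where `m` is the
number of the primes of split multiplicative reduction and `u` the number of the infinite places. -/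
noncomputable def rootNumber {K : Type} [Field K] [NumberField K] (E : WeierstrassCurve K) : ℤ :=
  (-1) ^ (Nat.card {v : HeightOneSpectrum (𝓞 K) // SplitMultiplicative E v} +
    Nat.card (InfinitePlace K))

/-- The p-parity conjecture for `E` over the extension `F` of `K` in `Ω`: the Selmer rank `rk_p (E/F)`
is a natural number `r`, and `(-1) ^ r` is the root number of `E` over `F`. -/
def PParity {K : Type} [Field K] (p : ℕ) [Fact p.Prime] (Ω : Type) [Field Ω] [Algebra K Ω]
    (E : WeierstrassCurve K) (F : Type) [Field F] [NumberField F] [Algebra K F] [Algebra F Ω]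
    [IsScalarTower K F Ω] : Prop :=
  ∃ r : ℕ, selmerRank p (resAct (galAct E Ω) F) = r ∧
    (-1 : ℤ) ^ r = rootNumber (E.map (algebraMap K F))

/-- The group `G` is 2-hyperelementary: it has a cyclic normal subgroup `C` of odd order such that
`G / C` is a 2-group. -/
def TwoHyperelementary (G : Type) [Group G] : Prop :=
  ∃ C : Subgroup G, C.Normal ∧ IsCyclic C ∧ Odd (Nat.card C) ∧ ∀ g : G, ∃ k : ℕ, g ^ 2 ^ k ∈ C

section Aux

open Pool.Agent.R433.MD (fx emb fx_eq_emb gal_unit IsHyper hyper_count)
open Pool.Agent.R333.BR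
open Pool.Agent.R333.Sel (sel_rel2)

section bridge
variable {K : Type} [Field K] [NumberField K]

theorem isModel_iff (E : WeierstrassCurve K) (W : WeierstrassCurve (𝓞 K)) :
    IsModel E W ↔ Pool.Agent.H341R2.EC.IsModel E W := by
  constructor
  · rintro ⟨C, hC⟩
    exact ⟨C⁻¹, by rw [← hC, inv_smul_smul]⟩
  · rintro ⟨C, hC⟩
    exact ⟨C⁻¹, by rw [← hC, inv_smul_smul]⟩

theorem semi_iff (E : WeierstrassCurve K) : Semistable E ↔ ∀ v, SemiAt E v := by
  unfold Semistable SemiAt
  simp only [isModel_iff]

theorem split_iff' (E : WeierstrassCurve K) (v : HeightOneSpectrum (𝓞 K)) :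
    SplitMultiplicative E v ↔ Split E v := by
  unfold SplitMultiplicative Split NodeAt TangentAt
  simp only [isModel_iff]

theorem root_eq (E : WeierstrassCurve K) : rootNumber E = (-1) ^ rex E := by
  classical
  unfold rootNumber rex ns
  simp only [split_iff', Nat.card_eq_fintype_card (α := InfinitePlace K)]

theorem neg_pow_iff (a b : ℕ) : (-1 : ℤ) ^ a = (-1) ^ b ↔ Even (a + b) := by
  rcases Nat.even_or_odd a with ha | ha <;> rcases Nat.even_or_odd b with hb | hb
  · simp [ha.neg_one_pow, hb.neg_one_pow, ha.add hb]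
  · simp [ha.neg_one_pow, hb.neg_one_pow, ha.add_odd hb]
  · simp [ha.neg_one_pow, hb.neg_one_pow, ha.add_even hb]
  · simp [ha.neg_one_pow, hb.neg_one_pow, ha.add_odd hb]

end bridge

section groups

theorem hyper_congr {G G' : Type} [Group G] [Group G'] (e : G ≃* G') (h : TwoHyperelementary G) :
    TwoHyperelementary G' := by
  obtain ⟨C, hn, hc, ho, hk⟩ := h
  refine ⟨C.map e.toMonoidHom, ?_, ?_, ?_, fun g => ?_⟩
  · exact hn.map _ e.surjective
  · let e' : C ≃* C.map e.toMonoidHom := C.equivMapOfInjective _ e.injective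
    exact isCyclic_of_surjective e'.toMonoidHom e'.surjective
  · let e' : C ≃* C.map e.toMonoidHom := C.equivMapOfInjective _ e.injective
    rw [← Nat.card_congr e'.toEquiv]
    exact ho
  · obtain ⟨k, hk⟩ := hk (e.symm g)
    refine ⟨k, ⟨_, hk, ?_⟩⟩
    change e (e.symm g ^ 2 ^ k) = g ^ 2 ^ k
    rw [map_pow, e.apply_symm_apply]

theorem hyper_sub {G : Type} [Group G] (H : Subgroup G) (h : TwoHyperelementary G) :
    TwoHyperelementary H := by
  obtain ⟨C, hn, hc, ho, hk⟩ := h
  have hinj : Function.Injective (fun x : C.subgroupOf H => (⟨(x : H), x.2⟩ : C)) := by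
    intro x y hxy
    exact Subtype.ext (Subtype.ext (congrArg (fun z : C => (z : G)) hxy))
  let q : C.subgroupOf H →* C :=
    { toFun := fun x => ⟨(x : H), x.2⟩
      map_one' := rfl
      map_mul' := fun _ _ => rfl }
  refine ⟨C.subgroupOf H, inferInstance, ?_, ?_, fun g => ?_⟩
  · exact isCyclic_of_injective q hinj
  · exact ho.of_dvd_nat (Subgroup.card_dvd_of_injective q hinj)
  · obtain ⟨k, hk⟩ := hk g
    exact ⟨k, hk⟩

theorem hyper_of {K L : Type} [Field K] [Field L] [Algebra K L] (F : IntermediateField K L)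
    (h : IsHyper 2 F.fixingSubgroup) : TwoHyperelementary Gal(L/F) := by
  refine hyper_congr (IntermediateField.fixingSubgroupEquiv F) ?_
  obtain ⟨C, hC, hcyc, hcop, hnorm, hpow⟩ := h
  have hinj : Function.Injective (fun x : C.subgroupOf F.fixingSubgroup =>
      (⟨(x : F.fixingSubgroup), x.2⟩ : C)) := by
    intro x y hxy
    exact Subtype.ext (Subtype.ext (congrArg (fun z : C => (z : Gal(L/K))) hxy))
  let q : C.subgroupOf F.fixingSubgroup →* C :=
    { toFun := fun x => ⟨(x : F.fixingSubgroup), x.2⟩
      map_one' := rfl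
      map_mul' := fun _ _ => rfl }
  refine ⟨C.subgroupOf F.fixingSubgroup, ⟨fun n hn g => ?_⟩, ?_, ?_, fun g => ?_⟩
  · exact hnorm g g.2 n hn
  · exact isCyclic_of_injective q hinj
  · exact (Nat.coprime_two_right.1 hcop).of_dvd_nat (Subgroup.card_dvd_of_injective q hinj)
  · obtain ⟨k, hk⟩ := hpow g g.2
    exact ⟨k, hk⟩

end groups

section steps

theorem semi_map {K F : Type} [Field K] [NumberField K] [Field F] [NumberField F] [Algebra K F]
    {E : WeierstrassCurve K} (hs : Semistable E) : Semistable (E.map (algebraMap K F)) := by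
  rw [semi_iff] at hs ⊢
  exact fun w => semi_ext (hs (Pool.Agent.R433.MD.und w)) ⟨w, rfl⟩

/-- the points are fixed by open subgroups -/
theorem smooth {K Ω : Type} [Field K] [Field Ω] [Algebra K Ω] (E : WeierstrassCurve K)
    (P : Points E Ω) : ∃ s : Finset Ω, ∀ σ : Gal(Ω/K), (∀ x ∈ s, σ x = x) → galAct E Ω σ P = P := by
  rcases P with _ | ⟨x, y, hxy⟩
  · exact ⟨∅, fun σ _ => rfl⟩
  · refine ⟨{x, y}, fun σ hσ => ?_⟩
    have hσx : σ x = x := hσ x (by simp)
    have hσy : σ y = y := hσ y (by simp)
    obtain ⟨h', h4⟩ := mp_some E (σ : Ω →ₐ[K] Ω) hxy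
    have e1 : (σ : Ω →ₐ[K] Ω) x = x := hσx
    have e2 : (σ : Ω →ₐ[K] Ω) y = y := hσy
    change mp E (σ : Ω →ₐ[K] Ω) (WeierstrassCurve.Affine.Point.some x y hxy) = _
    rw [h4]
    simp only [e1, e2]

variable {K L Ω : Type} [Field K] [NumberField K] [Field L] [NumberField L] [Algebra K L]
  [IsGalois K L] [Field Ω] [Algebra K Ω] [Algebra L Ω] [IsScalarTower K L Ω] [IsAlgClosure K Ω]
  (p : ℕ) [Fact p.Prime]

theorem pparity_iff (E : WeierstrassCurve K) (M : IntermediateField K L) :
    PParity p Ω E M ↔ ∃ r : ℕ, Module.rank ℚ_[p] (ℚ_[p] ⊗[ℤ_[p]]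
      (Sel (resAct (galAct E Ω) M) (pTorsion p (Points E Ω)) →+ QpZp p)) = r ∧
      Even (r + rex (E.map (algebraMap K M))) := by
  unfold PParity
  rw [root_eq]
  simp only [neg_pow_iff]
  rfl

/-- relations -/
theorem pparity_rel (E : WeierstrassCurve K) (hE : E.IsElliptic) (hs : Semistable E)
    (M : IntermediateField K L) {ι : Type} [Fintype ι] [Nonempty ι]
    (F : ι → IntermediateField M L) (e : ι → ℤ) (m : ℕ) (hm : Odd m)
    (h : ∀ g : Gal(L/M), ∑ i, e i * fx (F i).fixingSubgroup g = m)
    (hp : ∀ i, PParity p Ω E ((F i).restrictScalars K)) :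
    PParity p Ω E M := by
  have : Algebra.IsAlgebraic K Ω := IsAlgClosure.isAlgebraic
  have : Normal K Ω := inferInstance
  have hp' : ∀ i : ι, ∃ r : ℕ, Module.rank ℚ_[p] (ℚ_[p] ⊗[ℤ_[p]]
      (Sel (resAct (galAct E Ω) ((F i).restrictScalars K)) (pTorsion p (Points E Ω)) →+ QpZp p)) =
      r ∧ Even (r + rex (E.map (algebraMap K ((F i).restrictScalars K)))) :=
    fun i => (pparity_iff p E ((F i).restrictScalars K)).1 (hp i)
  choose r hr hev using hp'
  obtain ⟨r0, h1, h2⟩ := sel_rel2 (galAct E Ω) (pTorsion p (Points E Ω))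
    (by
      rintro σ x ⟨n, hn⟩
      refine ⟨n, ?_⟩
      rw [← map_nsmul, hn, map_zero]) (smooth E) ℤ_[p] (QpZp p) ℚ_[p] M F e m h r hr
  have h3 := rex_rel (K := M) (L := L) (fun i => (⟨F i⟩ : Pool.Agent.R433.MD.Ext M))
    (fun i => (F i).val) e m
    (fun g => by
      simp only [IntermediateField.fieldRange_val]
      exact h g) (E := E.map (algebraMap K M)) inferInstance ((semi_iff _).1 (semi_map hs))
  have hgoal : Even (r0 + rex (E.map (algebraMap K M))) → PParity p Ω E M :=
    fun h8 => (pparity_iff p E M).2 ⟨r0, h1, h8⟩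
  apply hgoal
  have h6 : ∀ i, rex ((E.map (algebraMap K M)).map (algebraMap M (F i))) =
      rex (E.map (algebraMap K ((F i).restrictScalars K))) := by
    intro i
    rw [WeierstrassCurve.map_map]
    rfl
  have h4 : Even ((m : ℤ) * (r0 + rex (E.map (algebraMap K M)))) := by
    have h5 : (m : ℤ) * (r0 + rex (E.map (algebraMap K M))) =
        ∑ i, e i * ((r i + rex (E.map (algebraMap K ((F i).restrictScalars K))) : ℕ) : ℤ) := by
      rw [mul_add, h2, ← h3, ← Finset.sum_add_distrib]
      refine Finset.sum_congr rfl fun i _ => ?_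
      rw [h6]
      push_cast
      ring
    rw [h5]
    refine Finset.even_sum _ fun i _ => ?_
    have h7 : Even ((r i + rex (E.map (algebraMap K ((F i).restrictScalars K))) : ℕ) : ℤ) := by
      exact_mod_cast hev i
    exact h7.mul_left _
  have hm' : Odd (m : ℤ) := by exact_mod_cast hm
  have h7 : Even ((r0 : ℤ) + rex (E.map (algebraMap K M))) := by
    rcases Int.even_mul.1 h4 with h8 | h8
    · exact absurd h8 (Int.not_even_iff_odd.2 hm')
    · exact h8
  exact_mod_cast h7

/-- induction from the 2-hyperelementary extensions -/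
theorem pparity_hyper (E : WeierstrassCurve K) (hE : E.IsElliptic) (hs : Semistable E)
    (M : IntermediateField K L)
    (hF : ∀ F : IntermediateField M L, TwoHyperelementary Gal(L/F) →
      PParity p Ω E (F.restrictScalars K)) :
    PParity p Ω E M := by
  obtain ⟨m, S, n, hm0, hmP, hS, hsum⟩ := gal_unit (K := M) (L := L)
    {F : IntermediateField M L | IsHyper 2 F.fixingSubgroup}
    (by
      intro F hF F' _
      have hle : (F ⊔ F').fixingSubgroup ≤ F.fixingSubgroup := by
        rw [IntermediateField.fixingSubgroup_sup]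
        exact inf_le_left
      have hF' : IsHyper 2 F.fixingSubgroup := hF
      exact hF'.le hle)
    (by
      intro F hF σ
      have e : (F.map (σ : L →ₐ[M] L)).fixingSubgroup =
          F.fixingSubgroup.map (MulAut.conj σ).toMonoidHom := IsGalois.map_fixingSubgroup F σ
      rw [Set.mem_ofPred_eq, e]
      have hF' : IsHyper 2 F.fixingSubgroup := hF
      exact hF'.conj σ) {2}
    (by
      intro g
      obtain ⟨H, hH, h⟩ := hyper_count Nat.prime_two g
      have e : (IntermediateField.fixedField H).fixingSubgroup = H :=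
        IntermediateField.fixingSubgroup_fixedField _
      refine ⟨IntermediateField.fixedField H, ?_, ?_⟩
      · rw [Set.mem_ofPred_eq, e]
        exact hH
      · have h1 := fx_eq_emb (IntermediateField.fixedField H) g
        rw [e] at h1
        intro h2
        rw [h1, h2] at h
        exact h (dvd_zero _))
    (by
      intro g p hp hpp
      obtain rfl : p = 2 := hp
      obtain ⟨H, hH, h⟩ := hyper_count Nat.prime_two g
      have e : (IntermediateField.fixedField H).fixingSubgroup = H :=
        IntermediateField.fixingSubgroup_fixedField _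
      refine ⟨IntermediateField.fixedField H, ?_, ?_⟩
      · rw [Set.mem_ofPred_eq, e]
        exact hH
      · have h1 := fx_eq_emb (IntermediateField.fixedField H) g
        rw [e] at h1
        rw [h1] at h
        exact_mod_cast h)
  have hodd : Odd m := by
    rw [← Nat.not_even_iff_odd, even_iff_two_dvd]
    exact hmP 2 rfl Nat.prime_two
  have hrel : ∀ g : Gal(L/M), ∑ i : S, n i.1 * fx (i.1).fixingSubgroup g = m := by
    intro g
    rw [← hsum g, ← Finset.sum_coe_sort S (fun F => n F * fx F.fixingSubgroup g)]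
  have hne : Nonempty S := by
    by_contra h
    rw [not_nonempty_iff] at h
    have h1 := hrel 1
    rw [Finset.univ_eq_empty, Finset.sum_empty] at h1
    exact hm0 (by exact_mod_cast h1.symm)
  exact pparity_rel p E hE hs M (fun i : S => i.1) (fun i => n i.1) m hodd hrel
    fun i => hF i.1 (hyper_of i.1 (hS i.1 i.2))

end steps

end Aux

/-- **Induction for the p-parity conjecture.** Let `E` be a semistable elliptic curve over a number
field `K`, `L / K` a finite Galois extension, `Ω` an algebraic closure of `K` containing `L`, and `p`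
a prime. The p-parity conjecture holds for `E` over all intermediate fields of `L / K` if and only if
it holds for `E` over the intermediate fields `F` for which `Gal(L/F)` is 2-hyperelementary. -/
theorem result (K L Ω : Type) [Field K] [NumberField K] [Field L] [NumberField L] [Algebra K L]
    [IsGalois K L] [Field Ω] [Algebra K Ω] [Algebra L Ω] [IsScalarTower K L Ω] [IsAlgClosure K Ω]
    (E : WeierstrassCurve K) (hE : E.IsElliptic) (hs : Semistable E) (p : ℕ) [Fact p.Prime] :
    (∀ M : IntermediateField K L, PParity p Ω E M) ↔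
      ∀ F : IntermediateField K L, TwoHyperelementary Gal(L/F) → PParity p Ω E F := by
  refine ⟨fun h F _ => h F, fun h M => ?_⟩
  refine pparity_hyper p E hE hs M fun F hF => ?_
  exact h (F.restrictScalars K) hF

end Pool.Agent.Results.MP_ddf76b_nt.SelmerInduction
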