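import Pool.Agent.R386.SE.Rel
import Pool.Agent.R386.SE.Tr
import Pool.Agent.R386.HY.Cube
import Pool.Agent.Results.MP_ddf76b_nt.SelmerInduction

/-!
# The p-parity conjecture for semistable elliptic curves: special fields

Let `E` be a semistable elliptic curve over a number field `K` and `p` a prime.  If `p`-parity holds for
`E` over the extensions `F` of `K` of degree at most `6` over which the discriminant of `E` is a cube or
`E` has a rational subgroup of order three, then it holds over `K`.
-/

set_option autoImplicit false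

namespace Pool.Agent.Results.MP_ddf76b_nt.SpecialFields

open NumberField IsDedekindDomain TensorProduct
open Pool.Agent.Results.MP_ddf76b_nt.SelmerInduction

/-- The discriminant is a cube in `F`. -/
def CubeDiscriminant {F : Type} [Field F] (E : WeierstrassCurve F) : Prop := ∃ z : F, z ^ 3 = E.Δ

/-- `E` has a subgroup of order three rational over `F`: the third division polynomial, whose roots
are the `x`-coordinates of the points of order three, has a root in `F`. -/
def RationalThreeSubgroup {F : Type} [Field F] (E : WeierstrassCurve F) : Prop :=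
  ∃ x : F, 3 * x ^ 4 + E.b₂ * x ^ 3 + 3 * E.b₄ * x ^ 2 + 3 * E.b₆ * x + E.b₈ = 0

section relation
open Pool.Agent.R333.Sel Pool.Agent.R333.BR Pool.Agent.R433.MD

/-- relations over the base field -/
theorem pparity_base {K L Ω : Type} [Field K] [NumberField K] [Field L] [NumberField L]
    [Algebra K L] [IsGalois K L] [Field Ω] [Algebra K Ω] [Algebra L Ω] [IsScalarTower K L Ω]
    [IsAlgClosure K Ω] (p : ℕ) [Fact p.Prime] (E : WeierstrassCurve K) (hE : E.IsElliptic)
    (hs : Semistable E) {ι : Type} [Fintype ι] [Nonempty ι] (F : ι → IntermediateField K L)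
    (e : ι → ℤ) (hrel : ∀ g : Gal(L/K), ∑ i, e i * fx (F i).fixingSubgroup g = 1)
    (hp : ∀ i, PParity p Ω E (F i)) : PParity p Ω E K := by
  classical
  have halg : Algebra.IsAlgebraic K Ω := IsAlgClosure.isAlgebraic
  have hnorm : Normal K Ω := inferInstance
  have hp' : ∀ i : ι, ∃ r : ℕ, Module.rank ℚ_[p] (ℚ_[p] ⊗[ℤ_[p]]
      (Sel (resAct (galAct E Ω) (F i)) (pTorsion p (Points E Ω)) →+ QpZp p)) =
      r ∧ Even (r + rex (E.map (algebraMap K (F i)))) :=
    fun i => (pparity_iff p E (F i)).1 (hp i)
  choose r hr hev using hp'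
  obtain ⟨r0, h1, h2⟩ := Pool.Agent.R386.SE.sel_rel_base (galAct E Ω) (pTorsion p (Points E Ω))
    (by
      rintro σ x ⟨n, hn⟩
      refine ⟨n, ?_⟩
      rw [← map_nsmul, hn, map_zero]) (smooth E) ℤ_[p] (QpZp p) ℚ_[p] F e 1 hrel r hr
  have h3 := rex_rel (K := K) (L := L) (fun i => (⟨F i⟩ : Ext K))
    (fun i => (F i).val) e 1
    (fun g => by
      simp only [IntermediateField.fieldRange_val]
      rw [hrel g]
      rfl) (E := E) hE ((semi_iff _).1 hs)
  have h3' : ∑ i, e i * (rex (E.map (algebraMap K (F i))) : ℤ) = rex E := by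
    have h4 : ∑ i, e i * (rex (E.map (algebraMap K (F i))) : ℤ) = ((1 : ℕ) : ℤ) * rex E := h3
    rw [h4, Nat.cast_one, one_mul]
  refine ⟨r0, h1, ?_⟩
  have e1 : E.map (algebraMap K K) = E := E.map_id
  rw [e1, root_eq, neg_pow_iff]
  have h5 : ((r0 + rex E : ℕ) : ℤ) = ∑ i, e i *
      ((r i + rex (E.map (algebraMap K (F i))) : ℕ) : ℤ) := by
    push_cast
    simp only [mul_add, Finset.sum_add_distrib]
    rw [← h2, h3', one_mul]
  have h6 : Even ((r0 + rex E : ℕ) : ℤ) := by
    rw [h5]
    refine Finset.even_sum _ fun i _ => ?_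
    have h7 : Even ((r i + rex (E.map (algebraMap K (F i))) : ℕ) : ℤ) := by
      exact_mod_cast hev i
    exact h7.mul_left _
  exact_mod_cast h6

theorem fx_top {G : Type} [Group G] (g : G) : fx (⊤ : Subgroup G) g = 1 := by
  have h0 : Subsingleton (G ⧸ (⊤ : Subgroup G)) := QuotientGroup.subsingleton_quotient_top
  have h1 : Nat.card {c : G ⧸ (⊤ : Subgroup G) // g • c = c} = 1 := by
    rw [Nat.card_eq_one_iff_unique]
    exact ⟨⟨fun a b => Subtype.ext (Subsingleton.elim _ _)⟩,
      ⟨⟨((1 : G) : G ⧸ (⊤ : Subgroup G)), Subsingleton.elim _ _⟩⟩⟩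
  unfold fx
  rw [h1, Nat.cast_one]

theorem pparity_bot {K L Ω : Type} [Field K] [NumberField K] [Field L] [NumberField L]
    [Algebra K L] [IsGalois K L] [Field Ω] [Algebra K Ω] [Algebra L Ω] [IsScalarTower K L Ω]
    [IsAlgClosure K Ω] (p : ℕ) [Fact p.Prime] (E : WeierstrassCurve K) (hE : E.IsElliptic)
    (hs : Semistable E) (h : PParity p Ω E (⊥ : IntermediateField K L)) : PParity p Ω E K := by
  refine pparity_base p E hE hs (fun _ : Unit => (⊥ : IntermediateField K L)) (fun _ => 1)
    (fun g => ?_) fun _ => h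
  rw [Finset.univ_unique, Finset.sum_singleton, IntermediateField.fixingSubgroup_bot, fx_top,
    one_mul]

/-- special fields -/
theorem pparity_special (K Ω : Type) [Field K] [NumberField K] [Field Ω] [Algebra K Ω]
    [IsAlgClosure K Ω] (E : WeierstrassCurve K) (hE : E.IsElliptic) (hs : Semistable E) (p : ℕ)
    [Fact p.Prime]
    (h : ∀ (F : Type) [Field F] [NumberField F] [Algebra K F] [Algebra F Ω] [IsScalarTower K F Ω],
      Module.finrank K F ≤ 6 →
      CubeDiscriminant (E.map (algebraMap K F)) ∨ RationalThreeSubgroup (E.map (algebraMap K F)) →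
      PParity p Ω E F) :
    PParity p Ω E K := by
  classical
  obtain ⟨L, _, _, _, _, S, n, hS, hrel⟩ := Pool.Agent.R386.HY.cube_rel E hE
  have halg : Algebra.IsAlgebraic K Ω := IsAlgClosure.isAlgebraic
  have hclosed : IsAlgClosed Ω := IsAlgClosure.isAlgClosed K
  let φ : L →ₐ[K] Ω := IsAlgClosed.lift
  let _ : Algebra L Ω := φ.toRingHom.toAlgebra
  have : IsScalarTower K L Ω := IsScalarTower.of_algebraMap_eq' φ.comp_algebraMap.symm
  have hrel' : ∀ g : Gal(L/K), ∑ i : S, n i.1 * fx (i.1).fixingSubgroup g = 1 := by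
    intro g
    rw [← hrel g, ← Finset.sum_coe_sort S (fun F => n F * fx F.fixingSubgroup g)]
  have hne : Nonempty S := by
    by_contra hN
    rw [not_nonempty_iff] at hN
    have h1 := hrel' 1
    rw [Finset.univ_eq_empty, Finset.sum_empty] at h1
    exact zero_ne_one h1
  exact pparity_base p E hE hs (fun i : S => i.1) (fun i => n i.1) hrel'
    fun F => h F.1 (hS F.1 F.2).2 (hS F.1 F.2).1

end relation

section transport
open scoped Classical
open Pool.Agent.R333.Sel Pool.Agent.R333.BR Pool.Agent.R386.SE

variable {K F F' Ω : Type} [Field K] [Field F] [Field F'] [Field Ω] [Algebra K F] [Algebra F F']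
  [Algebra K F'] [Algebra K Ω] [Algebra F Ω] [Algebra F' Ω] [IsScalarTower K F Ω]
  [IsScalarTower K F' Ω] [IsScalarTower F F' Ω] [IsScalarTower K F F']

theorem curve_eq (E : WeierstrassCurve K) :
    (E.map (algebraMap K F)).map (algebraMap F Ω) = E.map (algebraMap K Ω) := by
  rw [WeierstrassCurve.map_map, ← IsScalarTower.algebraMap_eq]

variable (F F' Ω) in
theorem rank_tr (p : ℕ) [Fact p.Prime] (E : WeierstrassCurve K) :
    selmerRank p (resAct (galAct (E.map (algebraMap K F)) Ω) F') =
      selmerRank p (resAct (galAct E Ω) F') := by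
  let e : Points (E.map (algebraMap K F)) Ω ≃+ Points E Ω := castPt (curve_eq E)
  have he : ∀ (σ : Gal(Ω/F')) (x : Points (E.map (algebraMap K F)) Ω),
      e (resAct (galAct (E.map (algebraMap K F)) Ω) F' σ x) = resAct (galAct E Ω) F' σ (e x) := by
    intro σ x
    rcases x with _ | ⟨a, b, hab⟩
    · change e ((resAct (galAct (E.map (algebraMap K F)) Ω) F' σ) 0) =
        (resAct (galAct E Ω) F' σ) (e 0)
      rw [map_zero, map_zero, map_zero]
    · obtain ⟨h1, h2⟩ := mp_some (E.map (algebraMap K F))
        ((AlgEquiv.restrictScalarsHom F σ : Gal(Ω/F)) : Ω →ₐ[F] Ω) hab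
      obtain ⟨h3, h4⟩ := castPt_some (curve_eq (F := F) E) h1
      obtain ⟨h5, h6⟩ := castPt_some (curve_eq (F := F) E) hab
      obtain ⟨h7, h8⟩ := mp_some E ((AlgEquiv.restrictScalarsHom K σ : Gal(Ω/K)) : Ω →ₐ[K] Ω) h5
      change castPt (curve_eq (F := F) E) (mp (E.map (algebraMap K F))
        ((AlgEquiv.restrictScalarsHom F σ : Gal(Ω/F)) : Ω →ₐ[F] Ω) _) =
          mp E ((AlgEquiv.restrictScalarsHom K σ : Gal(Ω/K)) : Ω →ₐ[K] Ω)
            (castPt (curve_eq (F := F) E) _)
      rw [h2, h4, h6, h8]
      rfl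
  refine rank_congr ℤ_[p] (QpZp p) ℚ_[p] (selCongr e he fun x => ?_)
  constructor
  · rintro ⟨k, hk⟩
    exact ⟨k, by rw [← map_nsmul, hk, map_zero]⟩
  · rintro ⟨k, hk⟩
    refine ⟨k, e.injective ?_⟩
    rw [map_nsmul, hk, map_zero]

theorem pparity_tr [NumberField F] [NumberField F'] (p : ℕ) [Fact p.Prime]
    (E : WeierstrassCurve K) :
    PParity p Ω (E.map (algebraMap K F)) F' ↔ PParity p Ω E F' := by
  unfold PParity
  rw [rank_tr F F' Ω p E, curve_eq]

end transport

theorem cube_map {K F : Type} [Field K] [Field F] [Algebra K F] {E : WeierstrassCurve K}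
    (h : CubeDiscriminant E ∨ RationalThreeSubgroup E) :
    CubeDiscriminant (E.map (algebraMap K F)) ∨ RationalThreeSubgroup (E.map (algebraMap K F)) := by
  rcases h with ⟨z, hz⟩ | ⟨x, hx⟩
  · exact Or.inl ⟨algebraMap K F z, by rw [← map_pow, hz, WeierstrassCurve.map_Δ]⟩
  · refine Or.inr ⟨algebraMap K F x, ?_⟩
    have h1 := congrArg (algebraMap K F) hx
    simp only [map_add, map_mul, map_pow, map_ofNat, map_zero] at h1
    rw [WeierstrassCurve.map_b₂, WeierstrassCurve.map_b₄, WeierstrassCurve.map_b₆,
      WeierstrassCurve.map_b₈]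
    exact h1

open Polynomial in
theorem hyper_gal {F L : Type} [Field F] [Field L] [Algebra F L] (f : F[X])
    [IsSplittingField F L f] (M : IntermediateField F L) (h : TwoHyperelementary Gal(L/M))
    (g : M[X]) (hg : g = f.map (algebraMap F M)) : TwoHyperelementary g.Gal := by
  subst hg
  have : IsSplittingField M L (f.map (algebraMap F M)) := inferInstance
  exact hyper_congr (AlgEquiv.autCongr (IsSplittingField.algEquiv L (f.map (algebraMap F M)))) h

theorem closure_top (K F Ω : Type) [Field K] [Field F] [Field Ω] [Algebra K F] [Algebra F Ω]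
    [Algebra K Ω] [IsScalarTower K F Ω] [IsAlgClosure K Ω] : IsAlgClosure F Ω := by
  have h1 : Algebra.IsAlgebraic K Ω := IsAlgClosure.isAlgebraic
  exact ⟨IsAlgClosure.isAlgClosed K, Algebra.IsAlgebraic.tower_top (K := K) F⟩

/-- **Main result.** Let `p` be a prime.
(1) If `p`-parity holds for the semistable elliptic curve `E` over `K` over all extensions `F` of `K` of
degree at most `6` over which the discriminant is a cube or there is a rational subgroup of order
three, then it holds over `K`.
(2) For every `N`: if `p`-parity holds for the semistable elliptic curves over number fields with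
cube discriminant or a rational subgroup of order three, for which the Galois group of the field
generated by the `x`-coordinates of the points of order dividing `N` is 2-hyperelementary, then it
holds for all semistable elliptic curves over number fields. -/
theorem result (p : ℕ) [Fact p.Prime] :
    (∀ (K Ω : Type) [Field K] [NumberField K] [Field Ω] [Algebra K Ω] [IsAlgClosure K Ω]
      (E : WeierstrassCurve K), E.IsElliptic → Semistable E →
      (∀ (F : Type) [Field F] [NumberField F] [Algebra K F] [Algebra F Ω] [IsScalarTower K F Ω],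
        Module.finrank K F ≤ 6 →
        CubeDiscriminant (E.map (algebraMap K F)) ∨
          RationalThreeSubgroup (E.map (algebraMap K F)) → PParity p Ω E F) → PParity p Ω E K) ∧
    ∀ N : ℤ,
      (∀ (K Ω : Type) [Field K] [NumberField K] [Field Ω] [Algebra K Ω] [IsAlgClosure K Ω]
        (E : WeierstrassCurve K), E.IsElliptic → Semistable E →
        CubeDiscriminant E ∨ RationalThreeSubgroup E → TwoHyperelementary (E.ΨSq N).Gal →
        PParity p Ω E K) →
      ∀ (K Ω : Type) [Field K] [NumberField K] [Field Ω] [Algebra K Ω] [IsAlgClosure K Ω]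
        (E : WeierstrassCurve K), E.IsElliptic → Semistable E → PParity p Ω E K := by
  refine ⟨fun K Ω _ _ _ _ _ E hE hs h => pparity_special K Ω E hE hs p h, ?_⟩
  intro N h K Ω _ _ _ _ _ E hE hs
  refine pparity_special K Ω E hE hs p fun F _ _ _ _ _ _ hF => ?_
  have hcF : IsAlgClosure F Ω := closure_top K F Ω
  have halg : Algebra.IsAlgebraic F Ω := IsAlgClosure.isAlgebraic
  have hclosed : IsAlgClosed Ω := IsAlgClosure.isAlgClosed F
  rw [← pparity_tr (F := F) p E]
  -- the splitting field
  let E1 : WeierstrassCurve F := E.map (algebraMap K F)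
  have hE1 : E1.IsElliptic := inferInstanceAs (E.map (algebraMap K F)).IsElliptic
  have hs1 : Semistable E1 := semi_map hs
  let L := (E1.ΨSq N).SplittingField
  have hn : Normal F L := Normal.of_isSplittingField (E1.ΨSq N)
  have hgal : IsGalois F L := ⟨⟩
  have hchar : CharZero L := charZero_of_injective_algebraMap (algebraMap F L).injective
  have hnf : NumberField L := NumberField.of_module_finite F L
  let φ : L →ₐ[F] Ω := IsAlgClosed.lift
  let _ : Algebra L Ω := φ.toRingHom.toAlgebra
  have : IsScalarTower F L Ω := IsScalarTower.of_algebraMap_eq' φ.comp_algebraMap.symm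
  refine pparity_bot (L := L) p E1 hE1 hs1 ?_
  refine (Pool.Agent.Results.MP_ddf76b_nt.SelmerInduction.result F L Ω E1 hE1 hs1 p).2
    (fun M hM => ?_) ⊥
  have hcM : IsAlgClosure M Ω := closure_top F M Ω
  rw [← pparity_tr (F := M) p E1]
  exact h M Ω (E1.map (algebraMap F M)) inferInstance (semi_map hs1) (cube_map hF)
    (hyper_gal (E1.ΨSq N) M hM _ (WeierstrassCurve.map_ΨSq _ _ _))

end Pool.Agent.Results.MP_ddf76b_nt.SpecialFields
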